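import Pool.Agent.H207.BT.Stm2

/-!
# Board task (helper207, project BT): targets for the solution (`S_TOP`)
-/

set_option autoImplicit false

open Topology Filter Metric Set MeasureTheory Polynomial

namespace Pool.Agent.H713.BT207

open Pool.Agent.H790R3.RB Pool.Agent.H211.HY Pool.Agent.H207.BT

lemma dd_succ {k : ℕ} (f : ℕ → (Fin k → ℂ) → ℂ → ℂ) (z : ℕ → ℂ) (n : ℕ) :
    DD f z (n + 1) = DD f z n * deriv (f n 0) (z n) := by
  simp [DD, Finset.prod_range_succ]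

lemma dd_le {k : ℕ} {i : Fin k} {f : ℕ → (Fin k → ℂ) → ℂ → ℂ} {v : (Fin k → ℂ) → ℂ}
    {z : ℕ → ℂ} {x : ℕ → ℝ} {ρ C c μ : ℝ} {κ : ℂ} (h : Good i f v z x ρ C c μ κ) (n : ℕ) :
    ‖DD f z n‖ ≤ C ^ n := by
  have hC := h.C1
  induction n with
  | zero => simp [DD]
  | succ n ih =>
    rw [dd_succ, norm_mul, pow_succ]
    have h1 := (h.dx n).2
    have h2 := (h.xx n)
    have h3 : ‖deriv (f n 0) (z n)‖ ≤ C := by nlinarith
    exact mul_le_mul ih h3 (norm_nonneg _) (by positivity)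

lemma C_gt {k : ℕ} {i : Fin k} {f : ℕ → (Fin k → ℂ) → ℂ → ℂ} {v : (Fin k → ℂ) → ℂ}
    {z : ℕ → ℂ} {x : ℕ → ℝ} {ρ C c μ : ℝ} {κ : ℂ} (h : Good i f v z x ρ C c μ κ) : 1 < C := by
  by_contra hc
  have hC : C = 1 := le_antisymm (not_lt.mp hc) h.C1
  obtain ⟨n, hn⟩ := pow_unbounded_of_one_lt (1 / c) h.μ1
  have h1 := h.gr n
  have h2 := dd_le h n
  rw [hC, one_pow] at h2
  have hc0 := h.c0
  rw [div_lt_iff₀ hc0] at hn
  nlinarith

/-- the inequalities between the logarithms -/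
lemma arith (m M lam Gam γ β k₁ s b ls a u N P t : ℝ) (hm : 1 ≤ m) (hM : m ≤ M)
    (hlam : lam = γ * Gam) (hγ : 0 < γ) (hβ : β = γ / 16) (hs : 0 ≤ s)
    (hlam0 : 0 < lam) (hP : P = a - u) (hu : 0 ≤ u) (h1 : N * lam - k₁ ≤ m * (-u) + P)
    (h2 : P ≤ N * Gam) (hN : 0 ≤ N) (ht : t ≤ (1 + β) * (u + s)) (ha0 : 0 ≤ a)
    (ha1 : (1 + β) * (k₁ + γ * k₁ / 2 + (M + 1) * s) + b ≤ 7 * γ / 16 * a)
    (ha2 : b + β * k₁ + M * (1 + β) * s + γ * k₁ / 2 + k₁ - ls ≤ 7 * γ / 16 * a) :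
    b + (m + 1) * ((1 + β) * (u + s)) ≤ a ∧ b ≤ m * (-t) + ls + P := by
  have hβ0 : 0 < β := by rw [hβ]; positivity
  have e1 : (m + 1) * u ≤ a + k₁ - N * lam := by linarith
  have e2 : 2 * u ≤ (m + 1) * u := by nlinarith
  have hNl : 0 ≤ N * lam := by positivity
  have e3 : a - k₁ ≤ 2 * (N * Gam) := by linarith
  have e4 : γ * (a - k₁) ≤ 2 * (N * lam) := by
    have := mul_le_mul_of_nonneg_left e3 hγ.le
    rw [hlam]
    nlinarith
  have e5 : (m + 1) * s ≤ (M + 1) * s := by nlinarith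
  have e6 : m * s ≤ M * s := by nlinarith
  constructor
  · have e7 : (m + 1) * (u + s) ≤ a + k₁ - γ * (a - k₁) / 2 + (M + 1) * s := by
      linarith
    have e8 : (1 + β) * ((m + 1) * (u + s)) ≤
        (1 + β) * (a + k₁ - γ * (a - k₁) / 2 + (M + 1) * s) :=
      mul_le_mul_of_nonneg_left e7 (by linarith)
    have e9 : (1 + β) * (a + k₁ - γ * (a - k₁) / 2 + (M + 1) * s) =
        a + (1 + β) * (k₁ + γ * k₁ / 2 + (M + 1) * s) - (γ / 2 - β + β * γ / 2) * a := by ring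
    have e10 : 7 * γ / 16 * a ≤ (γ / 2 - β + β * γ / 2) * a := by
      apply mul_le_mul_of_nonneg_right _ ha0
      rw [hβ]
      nlinarith [sq_nonneg γ]
    have e11 : (m + 1) * ((1 + β) * (u + s)) = (1 + β) * ((m + 1) * (u + s)) := by ring
    rw [e11]
    linarith
  · have f1 : m * t ≤ m * ((1 + β) * (u + s)) := mul_le_mul_of_nonneg_left ht (by linarith)
    have f2 : m * ((1 + β) * (u + s)) = m * u + β * (m * u) + (1 + β) * (m * s) := by ring
    have f3 : m * u ≤ a + k₁ := by nlinarith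
    have f4 : β * (m * u) ≤ β * (a + k₁) := mul_le_mul_of_nonneg_left f3 hβ0.le
    have f5 : (1 + β) * (m * s) ≤ (1 + β) * (M * s) :=
      mul_le_mul_of_nonneg_left e6 (by linarith)
    have f6 : β * a = γ / 16 * a := by rw [hβ]
    nlinarith

/-- **Targets for the solution.** -/
theorem t_TOP (h : Pool.Agent.H207.BT.S_VT) : Pool.Agent.H207.BT.S_TOP := by
  intro k f v z x ρ C c μ κ m RP η B hS σ hσ
  rcases isEmpty_or_nonempty (Fin k) with he | hne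
  · exact ⟨1, one_pos, fun ε _ => ⟨1, one_pos, fun i => (he.false i).elim⟩⟩
  obtain ⟨i0⟩ := hne
  have hB1 := hS.B1
  have hB0 : 0 < B := by linarith
  have hη := hS.η0
  have hc0 := (hS.good i0).c0
  have hC1 := C_gt (hS.good i0)
  have hC0 : 0 < C := by linarith
  have hμ1 := (hS.good i0).μ1
  have hμ0 : 0 < μ := by linarith
  have hlC : 0 < Real.log C := Real.log_pos hC1
  have hlμ : 0 < Real.log μ := Real.log_pos hμ1
  obtain ⟨σ₁, hσ₁⟩ : ∃ σ₁, σ₁ = min σ 1 := ⟨_, rfl⟩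
  have hσ0 : 0 < σ₁ := by rw [hσ₁]; exact lt_min hσ one_pos
  have hσ1 : σ₁ ≤ 1 := by rw [hσ₁]; exact min_le_right _ _
  have hσσ : σ₁ ≤ σ := by rw [hσ₁]; exact min_le_left _ _
  obtain ⟨A, hA⟩ : ∃ A, A = 2 * B / σ₁ := ⟨_, rfl⟩
  have hA1 : 1 ≤ A := by
    rw [hA, le_div_iff₀ hσ0]; linarith
  have hA0 : 0 < A := by linarith
  obtain ⟨γ, hγ⟩ : ∃ γ, γ = Real.log μ / Real.log C := ⟨_, rfl⟩
  have hγ0 : 0 < γ := by rw [hγ]; positivity
  obtain ⟨β, hβ⟩ : ∃ β, β = γ / 16 := ⟨_, rfl⟩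
  have hβ0 : 0 < β := by rw [hβ]; positivity
  obtain ⟨δ₀, hδ₀, K, hK, hVT⟩ := h k f v z x ρ C c μ κ m RP η B hS β hβ0
  have hK0 : 0 < K := by linarith
  refine ⟨A, hA0, fun ε hε => ?_⟩
  obtain ⟨ε₁, hε₁⟩ : ∃ ε₁, ε₁ = min (min ε η) (min 1 (Real.sqrt δ₀)) := ⟨_, rfl⟩
  have hε0 : 0 < ε₁ := by
    rw [hε₁]
    exact lt_min (lt_min hε hη) (lt_min one_pos (Real.sqrt_pos.mpr hδ₀))
  have hεε : ε₁ ≤ ε := by rw [hε₁]; exact (min_le_left _ _).trans (min_le_left _ _)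
  have hεη : ε₁ ≤ η := by rw [hε₁]; exact (min_le_left _ _).trans (min_le_right _ _)
  have hε1 : ε₁ ≤ 1 := by rw [hε₁]; exact (min_le_right _ _).trans (min_le_left _ _)
  have hεδ : ε₁ ^ 2 ≤ δ₀ := by
    have : ε₁ ≤ Real.sqrt δ₀ := by
      rw [hε₁]; exact (min_le_right _ _).trans (min_le_right _ _)
    calc ε₁ ^ 2 ≤ (Real.sqrt δ₀) ^ 2 := by gcongr
      _ = δ₀ := Real.sq_sqrt hδ₀.le
  obtain ⟨ρ₁, hρ₁, L, hfar⟩ := hS.far (σ₁ * ε₁) (by positivity) (by nlinarith)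
  obtain ⟨k₁, hk₁⟩ : ∃ k₁, k₁ = |Real.log (c * μ / B)| := ⟨_, rfl⟩
  have hk0 : 0 ≤ k₁ := by rw [hk₁]; exact abs_nonneg _
  obtain ⟨s, hs⟩ : ∃ s, s = Real.log A := ⟨_, rfl⟩
  have hs0 : 0 ≤ s := by rw [hs]; exact Real.log_nonneg hA1
  obtain ⟨b, hb⟩ : ∃ b, b = Real.log (B * K) := ⟨_, rfl⟩
  obtain ⟨M, hM⟩ : ∃ M : ℝ, M = ((∑ l, m l : ℕ) : ℝ) := ⟨_, rfl⟩
  have hmM : ∀ l, (m l : ℝ) ≤ M := by
    intro l
    rw [hM]
    exact_mod_cast Finset.single_le_sum (f := m) (fun _ _ => Nat.zero_le _) (Finset.mem_univ l)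
  obtain ⟨q₁, hq₁⟩ : ∃ q₁, q₁ = (1 + β) * (k₁ + γ * k₁ / 2 + (M + 1) * s) + b := ⟨_, rfl⟩
  obtain ⟨q₂, hq₂⟩ : ∃ q₂, q₂ = b + β * k₁ + M * (1 + β) * s + γ * k₁ / 2 + k₁ -
    Real.log σ₁ := ⟨_, rfl⟩
  obtain ⟨a₀, ha₀⟩ : ∃ a₀, a₀ = 16 / (7 * γ) * (max 0 (max q₁ q₂)) := ⟨_, rfl⟩
  have ha₀0 : 0 ≤ a₀ := by rw [ha₀]; positivity
  have ha₀1 : q₁ ≤ 7 * γ / 16 * a₀ := by
    have : 7 * γ / 16 * a₀ = max 0 (max q₁ q₂) := by
      rw [ha₀]; field_simp
    rw [this]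
    exact (le_max_left _ _).trans (le_max_right _ _)
  have ha₀2 : q₂ ≤ 7 * γ / 16 * a₀ := by
    have : 7 * γ / 16 * a₀ = max 0 (max q₁ q₂) := by
      rw [ha₀]; field_simp
    rw [this]
    exact (le_max_right _ _).trans (le_max_right _ _)
  refine ⟨min (min ρ₁ (σ₁ * ε₁ / (|L| + 1))) (Real.exp (-a₀)), by positivity,
    fun i N r hr hr0 hR1 hor => ?_⟩
  have hr1 : r ≤ ρ₁ := hr0.trans ((min_le_left _ _).trans (min_le_left _ _))
  have hr2 : r ≤ σ₁ * ε₁ / (|L| + 1) := hr0.trans ((min_le_left _ _).trans (min_le_right _ _))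
  have hr3 : r ≤ Real.exp (-a₀) := hr0.trans (min_le_right _ _)
  have hpgr := (hS.good i).gr N
  have hpgr1 := (hS.good i).gr (N + 1)
  have hpC := dd_le (hS.good i) N
  obtain ⟨p, hp⟩ : ∃ p, p = ‖DD (f i) (z i) N‖ := ⟨_, rfl⟩
  rw [← hp] at hpgr hpC hR1 hor ⊢
  have hp0 : 0 < p := lt_of_lt_of_le (by positivity) hpgr
  obtain ⟨R, hR⟩ : ∃ R, R = r * p := ⟨_, rfl⟩
  rw [← hR] at hR1 hor ⊢
  have hR0 : 0 < R := by rw [hR]; positivity
  by_cases hcase : ε₁ ≤ R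
  · -- far targets
    obtain ⟨q, hq1, -, hq2, hq3⟩ := hfar i N
    refine ⟨q, fun s hs => hq3 s (ball_subset_ball hr1 hs), fun s hs s' hs' => ?_, ?_⟩
    · refine (hq1 s (ball_subset_ball hr1 hs) s' (ball_subset_ball hr1 hs')).trans ?_
      apply mul_le_mul_of_nonneg_right _ (norm_nonneg _)
      rw [le_div_iff₀ (by positivity)] at hr2
      have h1 : r * (|L| + 1) ≤ r * (σ₁ * p) := by
        calc r * (|L| + 1) ≤ σ₁ * ε₁ := hr2
          _ ≤ σ₁ * R := by gcongr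
          _ = r * (σ₁ * p) := by rw [hR]; ring
      have h2 : |L| + 1 ≤ σ₁ * p := le_of_mul_le_mul_left h1 hr
      have h3 : L ≤ |L| := le_abs_self L
      have h4 : σ₁ * p ≤ σ * p := by gcongr
      linarith
    · calc ‖q 0 - z i N‖ ≤ σ₁ * ε₁ := hq2
        _ ≤ σ * R := by gcongr
  · -- close targets
    push Not at hcase
    have hAx : A * x i N ≤ R := by
      rcases hor with h1 | h1
      · linarith
      · exact h1
    have hx0 := ((hS.good i).xx N).1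
    have hxR : x i N ≤ R := (le_mul_of_one_le_left hx0.le hA1).trans hAx
    obtain ⟨l, hl1, hl2⟩ := hS.close i N (by linarith)
    rw [← hp] at hl1
    have hml := hS.mpos l
    -- logarithms
    obtain ⟨a, ha⟩ : ∃ a, a = -Real.log r := ⟨_, rfl⟩
    obtain ⟨u, hu⟩ : ∃ u, u = -Real.log R := ⟨_, rfl⟩
    obtain ⟨P, hP⟩ : ∃ P, P = Real.log p := ⟨_, rfl⟩
    have haa : a₀ ≤ a := by
      have : Real.log r ≤ -a₀ := by
        rw [← Real.log_exp (-a₀)]
        exact Real.log_le_log hr hr3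
      rw [ha]; linarith
    have hu0 : 0 ≤ u := by
      rw [hu]
      have := Real.log_nonpos hR0.le hR1
      linarith
    have hPau : P = a - u := by
      rw [hP, ha, hu, hR, Real.log_mul hr.ne' hp0.ne']; ring
    have h1 : (N : ℝ) * Real.log μ - k₁ ≤ (m l : ℝ) * (-u) + P := by
      have e1 : c * μ ^ (N + 1) ≤ B * R ^ m l * p := by
        calc c * μ ^ (N + 1) ≤ B * x i N ^ m l * p := hpgr1.trans hl1
          _ ≤ B * R ^ m l * p := by gcongr
      have e2 : c * μ / B * μ ^ N ≤ R ^ m l * p := by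
        rw [div_mul_eq_mul_div, div_le_iff₀ hB0]
        calc c * μ * μ ^ N = c * μ ^ (N + 1) := by ring
          _ ≤ B * R ^ m l * p := e1
          _ = R ^ m l * p * B := by ring
      have e3 := Real.log_le_log (by positivity) e2
      rw [Real.log_mul (by positivity) (by positivity), Real.log_mul (by positivity) hp0.ne',
        Real.log_pow, Real.log_pow] at e3
      have e4 : -k₁ ≤ Real.log (c * μ / B) := by rw [hk₁]; exact neg_abs_le _
      have e5 : (m l : ℝ) * (-u) = (m l : ℝ) * Real.log R := by rw [hu]; ring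
      rw [e5, hP]
      linarith
    have h2 : P ≤ (N : ℝ) * Real.log C := by
      rw [hP, ← Real.log_pow]
      exact Real.log_le_log hp0 hpC
    -- the scale
    obtain ⟨y, hy⟩ : ∃ y, y = R / A := ⟨_, rfl⟩
    have hy0 : 0 < y := by rw [hy]; positivity
    have hyR : y ≤ R := by rw [hy]; exact div_le_self hR0.le hA1
    have hly : Real.log y = -(u + s) := by
      rw [hy, Real.log_div hR0.ne' hA0.ne', hu, hs]; ring
    obtain ⟨δ, hδ⟩ : ∃ δ, δ = y ^ (m l + 1) := ⟨_, rfl⟩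
    have hδ0 : 0 < δ := by rw [hδ]; positivity
    have hδδ : δ ≤ δ₀ := by
      calc δ = y ^ (m l + 1) := hδ
        _ ≤ y ^ 2 := pow_le_pow_of_le_one hy0.le (by linarith) (by omega)
        _ ≤ ε₁ ^ 2 := by gcongr; linarith
        _ ≤ δ₀ := hεδ
    have hlδ : Real.log δ = ((m l : ℝ) + 1) * (-(u + s)) := by
      rw [hδ, Real.log_pow, hly]; push_cast; ring
    obtain ⟨w, hw1, hw2, hw3, hw4⟩ := hVT l δ hδ0 hδδ
    have hδβ : 0 < δ ^ (1 + β) := Real.rpow_pos_of_pos hδ0 _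
    have hlδβ : Real.log (δ ^ (1 + β)) = (1 + β) * (((m l : ℝ) + 1) * (-(u + s))) := by
      rw [Real.log_rpow hδ0, hlδ]
    obtain ⟨W, hW⟩ : ∃ W, W = ‖w 0 - z l 0‖ := ⟨_, rfl⟩
    rw [← hW] at hw1 hw2
    have hW0 : 0 < W := lt_of_lt_of_le hδβ hw1
    obtain ⟨y', hy'⟩ : ∃ y' : ℝ, y' = W ^ (((m l + 1 : ℕ) : ℝ)⁻¹) := ⟨_, rfl⟩
    have hy'0 : 0 < y' := by rw [hy']; exact Real.rpow_pos_of_pos hW0 _
    have hy'W : y' ^ (m l + 1) = W := by
      rw [hy']; exact Real.rpow_inv_natCast_pow hW0.le (by omega)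
    have hy'y : y' ≤ y := by
      have : y' ^ (m l + 1) ≤ y ^ (m l + 1) := by rw [hy'W, ← hδ]; exact hw2
      exact le_of_pow_le_pow_left₀ (by omega) hy0.le this
    obtain ⟨t, ht⟩ : ∃ t, t = -Real.log y' := ⟨_, rfl⟩
    have htt : t ≤ (1 + β) * (u + s) := by
      have e1 := Real.log_le_log hδβ hw1
      rw [hlδβ, ← hy'W, Real.log_pow] at e1
      push_cast at e1
      have e2 : ((m l : ℝ) + 1) * t ≤ ((m l : ℝ) + 1) * ((1 + β) * (u + s)) := by
        have e3 : ((m l : ℝ) + 1) * t = -(((m l : ℝ) + 1) * Real.log y') := by rw [ht]; ring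
        have e4 : ((m l : ℝ) + 1) * ((1 + β) * (u + s)) =
            -((1 + β) * (((m l : ℝ) + 1) * (-(u + s)))) := by ring
        rw [e3, e4]; exact neg_le_neg e1
      exact le_of_mul_le_mul_left e2 (by positivity)
    have hlam : Real.log μ = γ * Real.log C := by rw [hγ]; field_simp
    have h7 : 7 * γ / 16 * a₀ ≤ 7 * γ / 16 * a := by gcongr
    obtain ⟨g1, g2⟩ := arith (m l : ℝ) M (Real.log μ) (Real.log C) γ β k₁ s b (Real.log σ₁) a u
      (N : ℝ) P t (by exact_mod_cast hml) (hmM l) hlam hγ0 hβ hs0 hlμ hPau hu0 h1 h2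
      (by positivity) htt (by linarith) (by rw [← hq₁]; linarith) (by rw [← hq₂]; linarith)
    -- the conclusions
    have hBKr : B * K * r ≤ δ ^ (1 + β) := by
      rw [← Real.log_le_log_iff (by positivity) hδβ, hlδβ, Real.log_mul (by positivity) hr.ne',
        ← hb]
      have e1 : Real.log r = -a := by rw [ha]; ring
      have e2 : (1 + β) * (((m l : ℝ) + 1) * (-(u + s))) =
          -(((m l : ℝ) + 1) * ((1 + β) * (u + s))) := by ring
      rw [e1, e2]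
      linarith only [g1]
    have hrK : r ≤ δ ^ (1 + β) / K := by
      rw [le_div_iff₀ hK0]
      have : r * K ≤ B * (r * K) := le_mul_of_one_le_left (by positivity) hB1
      linarith
    have hsub : ball (0 : Fin k → ℂ) r ⊆ ball (0 : Fin k → ℂ) (δ ^ (1 + β) / K) :=
      ball_subset_ball hrK
    obtain ⟨q, hq1, -, hq3, hq4⟩ := hl2 w y' r K hy'0 (by linarith) (by rw [hy'W, hW]) hr hK
      (by rw [hy'W]; linarith) (fun s hs s' hs' => hw3 s (hsub hs) s' (hsub hs'))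
      (fun s hs => hw4 s (hsub hs))
    have hBK : B * K ≤ y' ^ m l * (σ₁ * p) := by
      rw [← Real.log_le_log_iff (by positivity) (by positivity), ← hb, Real.log_mul (by positivity)
        (by positivity), Real.log_mul hσ0.ne' hp0.ne', Real.log_pow, ← hP]
      have : Real.log y' = -t := by rw [ht]; ring
      rw [this]
      linarith
    refine ⟨q, hq4, fun s hs s' hs' => ?_, ?_⟩
    · have e1 := hq3 s hs s' hs'
      have e2 : y' ^ m l * ‖q s - q s'‖ ≤ y' ^ m l * (σ₁ * p * ‖s - s'‖) := by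
        calc y' ^ m l * ‖q s - q s'‖ ≤ B * K * ‖s - s'‖ := e1
          _ ≤ y' ^ m l * (σ₁ * p) * ‖s - s'‖ := by gcongr
          _ = y' ^ m l * (σ₁ * p * ‖s - s'‖) := by ring
      have e3 := le_of_mul_le_mul_left e2 (by positivity)
      calc ‖q s - q s'‖ ≤ σ₁ * p * ‖s - s'‖ := e3
        _ ≤ σ * p * ‖s - s'‖ := by gcongr
    · have e1 : B * y' ≤ σ₁ / 2 * R := by
        calc B * y' ≤ B * y := by gcongr
          _ = σ₁ / 2 * R := by rw [hy, hA]; field_simp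
      have e2 : B * x i N ≤ σ₁ / 2 * R := by
        have : x i N ≤ R / A := by rw [le_div_iff₀ hA0]; linarith
        calc B * x i N ≤ B * (R / A) := by gcongr
          _ = σ₁ / 2 * R := by rw [hA]; field_simp
      calc ‖q 0 - z i N‖ ≤ B * (y' + x i N) := hq1
        _ ≤ σ₁ * R := by linarith
        _ ≤ σ * R := by gcongr

end Pool.Agent.H713.BT207
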